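import Mathlib
import Pool.Agent.Helper35.HG.StB

/-!
Project HG (MP_925021_gt), module NTR: no touching.
-/

set_option autoImplicit false

namespace Pool.Agent.Helper62.HG

open Helper35.HG Helper35.HC Helper35.HSF Helper35.MS Helper35.PI Helper35.PI2 Helper32.CL
open scoped ContDiff Manifold Topology ENNReal BigOperators
open MeasureTheory Set Filter

/-- functions of time only -/
theorem time_only' (hJA : StJA) (n : ℕ) (g : ℝ → ℝ) (t₀ g' : ℝ) (hg : ContDiffAt ℝ 2 g t₀)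
    (hg' : HasDerivAt g g' t₀) :
    ContDiffAt ℝ 2 (fun z : EE n × ℝ => g z.2) ((0 : EE n), t₀) ∧
    (∀ k, jg (fun z : EE n × ℝ => g z.2) ((0 : EE n), t₀) k = 0) ∧
    jh (fun z : EE n × ℝ => g z.2) ((0 : EE n), t₀) = g' := by
  have hC : ContDiffAt ℝ 2 (fun z : EE n × ℝ => g z.2) ((0 : EE n), t₀) :=
    ContDiffAt.comp ((0 : EE n), t₀) (by exact hg) contDiffAt_snd
  have hd : ∀ᶠ s in 𝓝 t₀, DifferentiableAt ℝ g s := by
    filter_upwards [hg.eventually (by simp)] with s hs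
    exact hs.differentiableAt (by norm_num)
  have hf : ∀ z : EE n × ℝ, DifferentiableAt ℝ g z.2 → ∀ v : EE n × ℝ,
      fderiv ℝ (fun z : EE n × ℝ => g z.2) z v = fderiv ℝ g z.2 v.2 := by
    intro z hz v
    have : HasFDerivAt (fun z : EE n × ℝ => g z.2)
        ((fderiv ℝ g z.2).comp (ContinuousLinearMap.snd ℝ (EE n) ℝ)) z :=
      hz.hasFDerivAt.comp z hasFDerivAt_snd
    rw [this.fderiv]; rfl
  have h0 : ∀ᶠ z in 𝓝 ((0 : EE n), t₀), DifferentiableAt ℝ g z.2 :=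
    (continuous_snd.tendsto ((0 : EE n), t₀)).eventually hd
  have h1 : ∀ k, (fun z' => jg (fun z : EE n × ℝ => g z.2) z' k)
      =ᶠ[𝓝 ((0 : EE n), t₀)] fun _ => 0 := by
    intro k
    filter_upwards [h0] with z hz
    unfold jg
    rw [hf z hz]; simp
  refine ⟨hC, fun k => (h1 k).self_of_nhds, ?_⟩
  obtain ⟨hloc, hconst, -⟩ := hJA n ℝ ((0 : EE n), t₀)
  have h2 : ∀ i j, jgg (fun z : EE n × ℝ => g z.2) ((0 : EE n), t₀) i j = 0 := by
    intro i j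
    unfold jgg
    rw [(hloc _ _ (h1 j)).1 i]
    exact (hconst 0).1 i
  unfold jh
  simp only [h2, Finset.sum_const_zero, sub_zero]
  unfold jt
  rw [hf _ h0.self_of_nhds]
  change fderiv ℝ g t₀ 1 = g'
  rw [hg'.hasFDerivAt.fderiv]; simp

theorem ip0_nonneg {n : ℕ} (K : Fin n → Fin n → ℝ) : 0 ≤ ip0 K K := by
  unfold ip0
  exact Finset.sum_nonneg fun i _ => Finset.sum_nonneg fun j _ => mul_self_nonneg _

theorem last_lt (n r l lam' V W : ℝ) (hn0 : 0 < n) (hr : 0 < r) (hl : 0 < l) (hV : 0 < V)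
    (hW0 : 0 ≤ W) (hWV : W ≤ V) (hlam : -(n / 50 * r * l) < lam') :
    -(n / 50) * r * (l * V) - lam' * W < 0 := by
  have hpos : 0 < n / 50 * r * l := by positivity
  have h2 := mul_pos hpos hV
  have h3 : -(n / 50) * r * (l * V) = -(n / 50 * r * l * V) := by ring
  rw [h3]
  by_cases hs : 0 ≤ lam'
  · have h1 := mul_nonneg hs hW0
    linarith
  · have hs' : lam' < 0 := lt_of_not_ge hs
    have h1 : -lam' * W ≤ -lam' * V := mul_le_mul_of_nonneg_left hWV (by linarith)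
    have h4 : 0 < (n / 50 * r * l + lam') * V := mul_pos (by linarith) hV
    have h5 : (n / 50 * r * l + lam') * V = n / 50 * r * l * V - -lam' * V := by ring
    have h6 : -lam' * W = -(lam' * W) := by ring
    linarith

/-- the jet of the test function -/
theorem phi_jet (hJA : StJA) (hJB : StJB) (n : ℕ) (t₀ c lam' : ℝ) (lam : ℝ → ℝ)
    (β α s e j q : EE n × ℝ → ℝ) (hlC : ContDiffAt ℝ 2 lam t₀) (hl' : HasDerivAt lam lam' t₀)
    (hβ : ContDiffAt ℝ 2 β ((0 : EE n), t₀)) (hα : ContDiffAt ℝ 2 α ((0 : EE n), t₀))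
    (hs : ContDiffAt ℝ 2 s ((0 : EE n), t₀)) (he : ContDiffAt ℝ 2 e ((0 : EE n), t₀))
    (hj : ContDiffAt ℝ 2 j ((0 : EE n), t₀)) (hq : ContDiffAt ℝ 2 q ((0 : EE n), t₀)) :
    ContDiffAt ℝ 2 (fun z : EE n × ℝ => rr n z.2 * (β z + c • α z) + lam z.2 * (e z * s z)
      - lam z.2 * (j z + q z)) ((0 : EE n), t₀) ∧
    jh (fun z : EE n × ℝ => rr n z.2 * (β z + c • α z) + lam z.2 * (e z * s z)
      - lam z.2 * (j z + q z)) ((0 : EE n), t₀)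
      = (-(2 * n) * (β ((0 : EE n), t₀) + c * α ((0 : EE n), t₀))
        + rr n t₀ * (jh β ((0 : EE n), t₀) + c * jh α ((0 : EE n), t₀)))
        + (lam' * (e ((0 : EE n), t₀) * s ((0 : EE n), t₀))
          + lam t₀ * (jh e ((0 : EE n), t₀) * s ((0 : EE n), t₀)
          + e ((0 : EE n), t₀) * jh s ((0 : EE n), t₀)
          - 2 * ∑ k', jg e ((0 : EE n), t₀) k' * jg s ((0 : EE n), t₀) k'))
        - (lam' * (j ((0 : EE n), t₀) + q ((0 : EE n), t₀))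
          + lam t₀ * (jh j ((0 : EE n), t₀) + jh q ((0 : EE n), t₀))) := by
  have hrC : ContDiffAt ℝ 2 (fun s => rr n s) t₀ := by
    unfold rr
    fun_prop
  have hrD : HasDerivAt (fun s => rr n s) (-(2 * n)) t₀ := by
    unfold rr
    simpa using ((hasDerivAt_id t₀).const_mul (2 * (n : ℝ))).const_sub 1
  obtain ⟨hsC, hsg, hsh⟩ := time_only' hJA n (fun s => rr n s) t₀ _ hrC hrD
  obtain ⟨hκC, hκg, hκh⟩ := time_only' hJA n lam t₀ lam' hlC hl'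
  obtain ⟨-, -, hlin, hsm, -⟩ := hJA n ℝ ((0 : EE n), t₀)
  obtain ⟨hprod, -⟩ := hJB n 0 ((0 : EE n), t₀)
  have hαs : ContDiffAt ℝ 2 (fun z : EE n × ℝ => c • α z) ((0 : EE n), t₀) :=
    hα.const_smul _
  have hψ : ContDiffAt ℝ 2 (fun z : EE n × ℝ => β z + c • α z) ((0 : EE n), t₀) :=
    hβ.add hαs
  have hrψ : ContDiffAt ℝ 2 (fun z : EE n × ℝ => rr n z.2 * (β z + c • α z))
      ((0 : EE n), t₀) := hsC.mul hψ
  have hes : ContDiffAt ℝ 2 (fun z : EE n × ℝ => e z * s z) ((0 : EE n), t₀) := he.mul hs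
  have hles : ContDiffAt ℝ 2 (fun z : EE n × ℝ => lam z.2 * (e z * s z))
      ((0 : EE n), t₀) := hκC.mul hes
  have hJP : ContDiffAt ℝ 2 (fun z : EE n × ℝ => j z + q z) ((0 : EE n), t₀) := hj.add hq
  have hlJP : ContDiffAt ℝ 2 (fun z : EE n × ℝ => lam z.2 * (j z + q z))
      ((0 : EE n), t₀) := hκC.mul hJP
  have hsum1 : ContDiffAt ℝ 2 (fun z : EE n × ℝ => rr n z.2 * (β z + c • α z)
      + lam z.2 * (e z * s z)) ((0 : EE n), t₀) := hrψ.add hles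
  refine ⟨hsum1.sub hlJP, ?_⟩
  have e1 := (hlin _ _ hsum1 hlJP).2.2.2
  have e2 := (hlin _ _ hrψ hles).2.1
  have e3 := (hprod _ _ hsC hψ).2
  have e4 := (hprod _ _ hκC hes).2
  have e5 := (hprod _ _ hκC hJP).2
  have e6 := (hprod _ _ he hs).2
  have e7 := (hlin _ _ hj hq).2.1
  have e8 := (hlin _ _ hβ hαs).2.1
  have e9 := (hsm _ c hα).2
  simp only [hκg, hsg, zero_mul, Finset.sum_const_zero, mul_zero, sub_zero] at e3 e4 e5
  rw [e1, e2, e3, e4, e5, e6, e7, e8, e9, hκh, hsh]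
  simp only [smul_eq_mul]

theorem hNTR (hPBN : StPBN) (hSPN : StSPN) (hTPN : StTPN) (hCHR : StCHR) (hGCH : StGCH)
    (hG7 : StG7) (hG8 : StG8) (hMP : StMP) (hJA : StJA) (hJB : StJB) (hC1 : StC1) : StNTR := by
  intro n N k hN p hp M _ _ _ J F hF x₀ t₀ ht lam lam' hlC hl' hl0 hl1 hlam' z₀ hz₀ heq hev
  have hrr : 0 < rr n t₀ := hF.r0 t₀ ht
  have hn16 : 16 ≤ n := hp.n16
  have hn1 : 1 ≤ n := by omega
  have hn0 : (0 : ℝ) < n := by exact_mod_cast hn1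
  have hImm : IsImmJ (n := n) J F := hF.mcf.toIsImmJ
  -- the chart
  obtain ⟨L, hL⟩ := hC1 n N _ (hImm.imm x₀ t₀ ht)
  have hL' : LinearMap.range L.toLinearMap = TS (n := n) F x₀ t₀ := hL
  obtain ⟨u, θ, hG, -, -⟩ := hGCH n N M J F hF.mcf x₀ t₀ ht L hL'
  obtain ⟨A, hA⟩ : ∃ A, A = jgg u ((0 : EE n), t₀) := ⟨_, rfl⟩
  obtain ⟨T, hT⟩ : ∃ T, T = jggg u ((0 : EE n), t₀) := ⟨_, rfl⟩
  obtain ⟨hP1, hP2⟩ := hPBN n N hn1 M J F hF x₀ t₀ ht L u θ hG A T hA hT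
  obtain ⟨P, Q, ν, β, α, χ, hOP, hUN, hzP, hβC, hαC, hχC, hz0, hmem, hβh, hαh, hχh, hχg⟩ :=
    hP1 z₀ hz₀
  obtain ⟨sA, sT, sTx, -, sAA, sHH, sZF, sth, sx, sx0, -⟩ :=
    hSPN n N hn1 M J F hF x₀ t₀ ht L u θ hG A T hA hT
  obtain ⟨r, hr⟩ : ∃ r, r = 1 / rr n t₀ := ⟨_, rfl⟩
  have hr0 : 0 < r := by rw [hr]; positivity
  have hrr1 : rr n t₀ = 1 / r := by rw [hr]; field_simp
  rw [← hr] at sA sx
  obtain ⟨x, hx⟩ : ∃ x, x = YY A / ((n : ℝ) ^ 2 * r) - 1 := ⟨_, rfl⟩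
  have hxN : xN n F x₀ t₀ = x := by rw [sx, hx]
  obtain ⟨tt, htt⟩ : ∃ tt, tt = thA2 A / ((n : ℝ) * r) := ⟨_, rfl⟩
  have hval : ∀ (c d : Fin n → ℝ) (ν' : EE N), RgF n p (lam t₀) F x₀ t₀
      (bil (kn A ν') c d ^ 2, ip0 (kn A ν') (kn A ν'), (inner ℝ (Hv A) ν' : ℝ) ^ 2)
      = (bil (kn A ν') c d ^ 2 + p.E / n * ip0 (kn A ν') (kn A ν')) / r
        + lam t₀ * (p.e x * tt)
        - lam t₀ * (p.J ((inner ℝ (Hv A) ν' : ℝ) ^ 2 / ((n : ℝ) ^ 2 * r)) + p.P x) := by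
    intro c d ν'
    unfold RgF
    rw [hxN, sth, hrr1, htt]
    have e1 : 1 / r * (inner ℝ (Hv A) ν' : ℝ) ^ 2 / (n : ℝ) ^ 2
        = (inner ℝ (Hv A) ν' : ℝ) ^ 2 / ((n : ℝ) ^ 2 * r) := by field_simp
    have e2 : 1 / r * thA2 A / (n : ℝ) = thA2 A / ((n : ℝ) * r) := by field_simp
    simp only [e1, e2]
    ring
  have hRgA : RgA n p (lam t₀) A r L (F x₀ t₀) := by
    intro ν' hν' c d hcd
    have h1 := hev.self_of_nhds le_rfl _ (hP2 c d ν' hcd hν')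
    simp only at h1
    rw [hval] at h1
    rw [← hx, ← htt]
    linarith
  obtain ⟨h, hh⟩ : ∃ h : ℝ, h = inner ℝ (Hv A) ν := ⟨_, rfl⟩
  obtain ⟨X, hXq⟩ : ∃ X, X = h ^ 2 / ((n : ℝ) ^ 2 * r) := ⟨_, rfl⟩
  have heq' : (bil (kn A ν) P Q ^ 2 + p.E / n * ip0 (kn A ν) (kn A ν)) / r
      + lam t₀ * (p.e x * tt) = lam t₀ * (p.J X + p.P x) := by
    have h1 := heq
    rw [hzP, hval, ← hh, ← hXq] at h1
    linarith
  obtain ⟨hx0, htt0, hX0, hXx, hTP⟩ := hTPN n N k hN p hp A r L (F x₀ t₀) sA T sT sTx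
    (lam t₀) hl0 hl1 hRgA x tt hx htt P Q ν hUN hOP X h hh hXq heq' _ _ _ _ _ rfl rfl rfl rfl rfl
  -- the functions
  obtain ⟨hXC, hXv, hXg, hXh⟩ := hG7 n N (F x₀ t₀) L u t₀ hG.sol A T hA hT
  obtain ⟨hYC, hYv, hYg, hYh⟩ := hG8 n N (F x₀ t₀) L u t₀ hG.sol A T hA hT
  obtain ⟨XX', hXd⟩ : ∃ X', X' = Xf (F x₀ t₀) L u := ⟨_, rfl⟩
  obtain ⟨Y, hYd⟩ : ∃ Y, Y = Yf (F x₀ t₀) L u := ⟨_, rfl⟩
  rw [← hXd] at hXC hXv hXg hXh
  rw [← hYd] at hYC hYv hYg hYh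
  replace hXC : ContDiffAt ℝ 2 XX' ((0 : EE n), t₀) := hXC.of_le (by norm_num)
  replace hYC : ContDiffAt ℝ 2 Y ((0 : EE n), t₀) := hYC.of_le (by norm_num)
  have hrC : ContDiffAt ℝ 2 (fun s => rr n s) t₀ := by
    unfold rr
    fun_prop
  have hrD : HasDerivAt (fun s => rr n s) (-(2 * n)) t₀ := by
    unfold rr
    simpa using ((hasDerivAt_id t₀).const_mul (2 * (n : ℝ))).const_sub 1
  obtain ⟨hsC, hsg, hsh⟩ := time_only' hJA n (fun s => rr n s) t₀ _ hrC hrD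
  obtain ⟨-, hconst, hlin, hsm, -⟩ := hJA n ℝ ((0 : EE n), t₀)
  obtain ⟨hprod, -⟩ := hJB n 0 ((0 : EE n), t₀)
  have hcC : ∀ a : ℝ, ContDiffAt ℝ 2 (fun _ : EE n × ℝ => a) ((0 : EE n), t₀) :=
    fun a => contDiffAt_const
  have hβv : β ((0 : EE n), t₀) = bil (kn A ν) P Q ^ 2 := by
    have := hz0.trans hzP
    exact (Prod.ext_iff.1 this).1
  have hαv : α ((0 : EE n), t₀) = ip0 (kn A ν) (kn A ν) := by
    have := hz0.trans hzP
    exact (Prod.ext_iff.1 (Prod.ext_iff.1 this).2).1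
  have hχv : χ ((0 : EE n), t₀) = h ^ 2 := by
    have := hz0.trans hzP
    rw [hh]
    exact (Prod.ext_iff.1 (Prod.ext_iff.1 this).2).2
  -- x as a function
  have hrY : ContDiffAt ℝ 2 (fun z : EE n × ℝ => rr n z.2 * Y z) ((0 : EE n), t₀) := hsC.mul hYC
  have hrYs : ContDiffAt ℝ 2 (fun z : EE n × ℝ => (1 / (n : ℝ) ^ 2) • (rr n z.2 * Y z))
      ((0 : EE n), t₀) := hrY.const_smul _
  obtain ⟨w, hw⟩ : ∃ w : EE n × ℝ → ℝ,
    w = fun z => (1 / (n : ℝ) ^ 2) • (rr n z.2 * Y z) - 1 := ⟨_, rfl⟩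
  have hwC : ContDiffAt ℝ 2 w ((0 : EE n), t₀) := by
    rw [hw]; exact hrYs.sub (hcC 1)
  have hw0 : w ((0 : EE n), t₀) = x := by
    rw [hw, hx]
    simp only [hYv, smul_eq_mul, hrr1]
    field_simp
  have hwg : ∀ k, jg w ((0 : EE n), t₀) k = 1 / r * (gY A T k / (n : ℝ) ^ 2) := by
    intro k
    rw [hw, (hlin _ _ hrYs (hcC 1)).2.2.1 k, (hconst 1).1 k, (hsm _ _ hrY).1 k,
      (hprod _ _ hsC hYC).1 k, hsg k, hYg k, hrr1]
    simp only [smul_eq_mul]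
    ring
  have hwh : jh w ((0 : EE n), t₀)
      = 1 / r * (hY A T / (n : ℝ) ^ 2) - 2 * n * (YY A / (n : ℝ) ^ 2) := by
    rw [hw, (hlin _ _ hrYs (hcC 1)).2.2.2, (hconst 1).2, (hsm _ _ hrY).2,
      (hprod _ _ hsC hYC).2, hsh, hYh, hYv]
    simp only [smul_eq_mul, hsg, zero_mul, Finset.sum_const_zero, hrr1]
    ring
  -- X as a function
  have hrχ : ContDiffAt ℝ 2 (fun z : EE n × ℝ => rr n z.2 * χ z) ((0 : EE n), t₀) := hsC.mul hχC
  obtain ⟨v, hv⟩ : ∃ v : EE n × ℝ → ℝ,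
    v = fun z => (1 / (n : ℝ) ^ 2) • (rr n z.2 * χ z) := ⟨_, rfl⟩
  have hvC : ContDiffAt ℝ 2 v ((0 : EE n), t₀) := by
    rw [hv]; exact hrχ.const_smul _
  have hv0 : v ((0 : EE n), t₀) = X := by
    rw [hv, hXq]
    simp only [hχv, smul_eq_mul, hrr1]
    field_simp
  have hvg : ∀ k, jg v ((0 : EE n), t₀) k
      = 1 / r * (2 * h * inner ℝ (et T k) ν / (n : ℝ) ^ 2) := by
    intro k
    rw [hv, (hsm _ _ hrχ).1 k, (hprod _ _ hsC hχC).1 k, hsg k, hχg k, hrr1, ← hh]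
    simp only [smul_eq_mul]
    ring
  have hvh : jh v ((0 : EE n), t₀)
      = 1 / r * ((-2 * eqn T ν + 2 * RN3 A ν) / (n : ℝ) ^ 2) - 2 * n * (h ^ 2 / (n : ℝ) ^ 2) := by
    rw [hv, (hsm _ _ hrχ).2, (hprod _ _ hsC hχC).2, hsh, hχh, hχv]
    simp only [smul_eq_mul, hsg, zero_mul, Finset.sum_const_zero, hrr1]
    ring
  -- theta as a function
  have hYs : ContDiffAt ℝ 2 (fun z : EE n × ℝ => (1 / (n : ℝ)) • Y z) ((0 : EE n), t₀) :=
    hYC.const_smul _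
  have hth : ContDiffAt ℝ 2 (fun z : EE n × ℝ => XX' z - (1 / (n : ℝ)) • Y z) ((0 : EE n), t₀) :=
    hXC.sub hYs
  have hrth : ContDiffAt ℝ 2 (fun z : EE n × ℝ => rr n z.2 * (XX' z - (1 / (n : ℝ)) • Y z))
      ((0 : EE n), t₀) := hsC.mul hth
  obtain ⟨s, hs⟩ : ∃ s : EE n × ℝ → ℝ,
    s = fun z => (1 / (n : ℝ)) • (rr n z.2 * (XX' z - (1 / (n : ℝ)) • Y z)) := ⟨_, rfl⟩
  have hsCC : ContDiffAt ℝ 2 s ((0 : EE n), t₀) := by
    rw [hs]; exact hrth.const_smul _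
  have hs0 : s ((0 : EE n), t₀) = tt := by
    rw [hs, htt]
    simp only [hXv, hYv, smul_eq_mul, hrr1, thA2]
    field_simp
  have hssg : ∀ k, jg s ((0 : EE n), t₀) k
      = 1 / r * ((gX A T k - gY A T k / (n : ℝ)) / (n : ℝ)) := by
    intro k
    rw [hs, (hsm _ _ hrth).1 k, (hprod _ _ hsC hth).1 k, hsg k, (hlin _ _ hXC hYs).2.2.1 k,
      (hsm _ _ hYC).1 k, hXg k, hYg k, hrr1]
    simp only [smul_eq_mul]
    ring
  have hssh : jh s ((0 : EE n), t₀)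
      = 1 / r * ((hX A T - hY A T / (n : ℝ)) / (n : ℝ)) - 2 * thA2 A := by
    rw [hs, (hsm _ _ hrth).2, (hprod _ _ hsC hth).2, hsh, (hlin _ _ hXC hYs).2.2.2,
      (hsm _ _ hYC).2, hXh, hYh]
    simp only [smul_eq_mul, hsg, zero_mul, Finset.sum_const_zero, hrr1, hXv, hYv, thA2]
    field_simp
    ring
  -- the profile functions
  obtain ⟨eC, eg, eh⟩ := hCHR n ((0 : EE n), t₀) p.e p.e1 p.e2 w hwC (by
    rw [hw0]; exact hp.ce x hx0)
  obtain ⟨pC, pg, ph⟩ := hCHR n ((0 : EE n), t₀) p.P p.P1 p.P2 w hwC (by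
    rw [hw0]; exact hp.cP x hx0)
  obtain ⟨jC, -, jH⟩ := hCHR n ((0 : EE n), t₀) p.J p.J1 p.J2 v hvC (by
    rw [hv0]; exact hp.cJ X hX0)
  rw [hw0] at eh ph
  rw [hv0] at jH
  simp only [hw0] at eg
  rw [hwh] at eh ph
  rw [hvh] at jH
  simp only [hwg] at eg eh ph
  simp only [hvg] at jH
  -- the test function
  obtain ⟨hΦC', hΦh⟩ := phi_jet hJA hJB n t₀ (p.E / n) lam' lam β α s (fun z => p.e (w z))
    (fun z => p.J (v z)) (fun z => p.P (w z)) hlC hl' hβC hαC hsCC eC jC pC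
  obtain ⟨Φ, hΦ⟩ : ∃ Φ : EE n × ℝ → ℝ,
    Φ = fun z => rr n z.2 * (β z + (p.E / n) • α z) + lam z.2 * (p.e (w z) * s z)
      - lam z.2 * (p.J (v z) + p.P (w z)) := ⟨_, rfl⟩
  have hΦC : ContDiffAt ℝ 2 Φ ((0 : EE n), t₀) := by
    rw [hΦ]; exact hΦC'
  have hΦ0 : Φ ((0 : EE n), t₀) = 0 := by
    rw [hΦ]
    simp only [hβv, hαv, hw0, hv0, hs0, smul_eq_mul, hrr1]
    have : 1 / r * (bil (kn A ν) P Q ^ 2 + p.E / n * ip0 (kn A ν) (kn A ν))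
        = (bil (kn A ν) P Q ^ 2 + p.E / n * ip0 (kn A ν) (kn A ν)) / r := by ring
    rw [this]
    linarith
  have hmax : ∀ᶠ z in 𝓝 ((0 : EE n), t₀), z.2 ≤ t₀ → Φ z ≤ Φ ((0 : EE n), t₀) := by
    have hc : Tendsto (fun z : EE n × ℝ => (θ z, z.2)) (𝓝 ((0 : EE n), t₀)) (𝓝 (x₀, t₀)) := by
      have h1 : Tendsto θ (𝓝 ((0 : EE n), t₀)) (𝓝 x₀) := by
        rw [← hG.pt]; exact hG.ct
      rw [nhds_prod_eq (x := x₀)]
      exact h1.prodMk (continuous_snd.tendsto ((0 : EE n), t₀))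
    filter_upwards [hc.eventually hev, hmem, hG.hH] with z hz hz2 hz3 hzt
    have h3 := hz hzt _ hz2
    obtain ⟨e1, e2, -⟩ := hz3
    have eX : AA (n := n) F (θ z) z.2 = XX' z := by rw [e2, hXd]; rfl
    have eY : ‖HH (n := n) F (θ z) z.2‖ ^ 2 = Y z := by rw [e1, hYd]; rfl
    have eth : thN n F (θ z) z.2 = XX' z - (1 / (n : ℝ)) • Y z := by
      unfold thN
      rw [eX, eY, smul_eq_mul]; ring
    have ex : xN n F (θ z) z.2 = w z := by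
      unfold xN
      rw [eY, hw]
      simp only [smul_eq_mul]; ring
    have es : rr n z.2 * thN n F (θ z) z.2 / n = s z := by
      rw [eth, hs]
      simp only [smul_eq_mul]; ring
    have ev : rr n z.2 * χ z / (n : ℝ) ^ 2 = v z := by
      rw [hv]
      simp only [smul_eq_mul]; ring
    unfold RgF at h3
    simp only [es, ex, ev] at h3
    rw [hΦ0, hΦ]
    simp only [smul_eq_mul] at h3 ⊢
    linarith
  obtain ⟨-, hh0⟩ := hMP n 0 t₀ Φ hΦC hmax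
  have hheat : jh Φ ((0 : EE n), t₀)
      = (-(2 * n) * (bil (kn A ν) P Q ^ 2 + p.E / n * ip0 (kn A ν) (kn A ν))
        + 1 / r * ((-2 * tpq T P Q ν + 2 * RN1 A P Q ν)
          + p.E / n * (-2 * (tqn T ν - eqn T ν / n) + 2 * RN2 A ν)))
        + (lam' * (p.e x * tt) + lam t₀ * (jh (fun z => p.e (w z)) ((0 : EE n), t₀) * tt
          + p.e x * jh s ((0 : EE n), t₀)
          - 2 * ∑ k', jg (fun z => p.e (w z)) ((0 : EE n), t₀) k' * jg s ((0 : EE n), t₀) k'))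
        - (lam' * (p.J X + p.P x) + lam t₀ * (jh (fun z => p.J (v z)) ((0 : EE n), t₀)
          + jh (fun z => p.P (w z)) ((0 : EE n), t₀))) := by
    rw [hΦ, hΦh]
    simp only [hβv, hαv, hw0, hv0, hs0, hrr1, hβh, hαh]
  rw [eh, ph, jH, hssh] at hheat
  simp only [eg, hssg] at hheat
  have hcx : ∑ k', p.e1 x * (1 / r * (gY A T k' / (n : ℝ) ^ 2))
        * (1 / r * ((gX A T k' - gY A T k' / (n : ℝ)) / (n : ℝ)))
      = p.e1 x * ∑ k', 1 / r * (gY A T k' / (n : ℝ) ^ 2)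
        * (1 / r * ((gX A T k' - gY A T k' / (n : ℝ)) / (n : ℝ))) := by
    rw [Finset.mul_sum]
    apply Finset.sum_congr rfl
    intro k' _
    ring
  rw [hcx] at hheat
  have hVpos : 0 < p.J X + p.P x := hp.V0 X x hX0 hXx
  have heth : 0 ≤ p.e x * tt := mul_nonneg (hp.e0 x hx0) htt0
  have hVe : 0 ≤ p.J X + p.P x - p.e x * tt := by
    have h1 : lam t₀ * (p.J X + p.P x - p.e x * tt)
        = (bil (kn A ν) P Q ^ 2 + p.E / n * ip0 (kn A ν) (kn A ν)) / r := by linarith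
    have h2 : 0 ≤ (bil (kn A ν) P Q ^ 2 + p.E / n * ip0 (kn A ν) (kn A ν)) / r := by
      have := ip0_nonneg (kn A ν)
      have := hp.E0
      positivity
    rw [← h1] at h2
    exact nonneg_of_mul_nonneg_right h2 hl0
  have hfin : jh Φ ((0 : EE n), t₀)
      ≤ -(n / 50) * r * (lam t₀ * (p.J X + p.P x)) - lam' * (p.J X + p.P x - p.e x * tt) := by
    rw [hheat]
    refine le_trans (le_of_eq ?_) (sub_le_sub_right hTP _)
    ring
  have hlast : -(n / 50) * r * (lam t₀ * (p.J X + p.P x))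
      - lam' * (p.J X + p.P x - p.e x * tt) < 0 := by
    have hlr : -(n / 50) * (lam t₀ / rr n t₀) = -(n / 50 * r * lam t₀) := by
      rw [hrr1]; field_simp
    rw [hlr] at hlam'
    exact last_lt n r (lam t₀) lam' _ _ hn0 hr0 hl0 hVpos hVe (by linarith) hlam'
  linarith

end Pool.Agent.Helper62.HG
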